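import Pool.Agent.R178.SL.Core2
import Pool.Agent.R178.SL.Coord
import Pool.Agent.R178.SL.Final

set_option autoImplicit false

namespace Pool.Agent.Results.MP_8bc176_co.IntegerMeasures

open Pool.Agent.R178.SL

/-- If the standard measure of a bounded measurable set `Ω` is a real combination of standard
measures of simplices with vertices in `S`, it is an integer combination of such measures. -/
theorem result (d : ℕ) (S Ω : Set (EuclideanSpace ℝ (Fin d))) (hb : Bornology.IsBounded Ω)
    (hm : MeasurableSet Ω) (h : mu Ω ∈ MDelta S) : mu Ω ∈ Lam S :=
  Final.final d S Ω (core Coord.coord _) hb hm h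

end Pool.Agent.Results.MP_8bc176_co.IntegerMeasures
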